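import Mathlib

/-! The minimal DFA of an edit-distance ball can have exponential size: for `x` a word of `3r`
distinct letters and `k = 2r`, every DFA for `B_k(x)` has at least `2 ^ r` states. -/

namespace Pool.Agent.Results.MP_ecf776_lc.Exponential

variable {α : Type}

/-- One insertion, deletion or substitution of a single symbol. -/
inductive Step : List α → List α → Prop
  | ins (p s : List α) (b : α) : Step (p ++ s) (p ++ b :: s)
  | del (p s : List α) (a : α) : Step (p ++ a :: s) (p ++ s)
  | sub (p s : List α) (a b : α) : Step (p ++ a :: s) (p ++ b :: s)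

/-- `v` is obtained from `u` by exactly `k` edit operations. -/
inductive Reach : ℕ → List α → List α → Prop
  | refl (u : List α) : Reach 0 u u
  | step {k : ℕ} {u v w : List α} : Reach k u v → Step v w → Reach (k + 1) u w

/-- `B_k(x)`: the words at edit distance at most `k` from `x`. -/
def ball (k : ℕ) (x : List α) : Language α := {w | ∃ j ≤ k, Reach j x w}

/-- Alignments of cost at most `k`. -/
inductive Al : List α → List α → ℕ → Prop
  | nil (k : ℕ) : Al [] [] k
  | del {x w k} (a : α) : Al x w k → Al (a :: x) w (k + 1)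
  | ins {x w k} (b : α) : Al x w k → Al x (b :: w) (k + 1)
  | sub {x w k} (a b : α) : Al x w k → Al (a :: x) (b :: w) (k + 1)
  | mat {x w k} (a : α) : Al x w k → Al (a :: x) (a :: w) k

lemma Al.succ {x w : List α} {k : ℕ} (h : Al x w k) : Al x w (k + 1) := by
  induction h with
  | nil k => exact .nil _
  | del a _ ih => exact .del a ih
  | ins b _ ih => exact .ins b ih
  | sub a b _ ih => exact .sub a b ih
  | mat a _ ih => exact .mat a ih

lemma Al.mono {x w : List α} {k l : ℕ} (h : Al x w k) (hl : k ≤ l) : Al x w l := by
  induction hl with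
  | refl => exact h
  | step _ ih => exact ih.succ

lemma Al.refl (x : List α) : Al x x 0 := by
  induction x with
  | nil => exact .nil _
  | cons a x ih => exact .mat a ih

lemma step_cases {c : α} {w v : List α} (h : Step (c :: w) v) :
    (∃ b, v = b :: c :: w) ∨ v = w ∨ (∃ b, v = b :: w) ∨ ∃ v', v = c :: v' ∧ Step w v' := by
  generalize e : c :: w = u at h
  cases h with
  | ins p s b =>
    cases p with
    | nil => exact Or.inl ⟨b, by simp⟩
    | cons d p =>
      simp only [List.cons_append, List.cons.injEq] at e
      obtain ⟨rfl, rfl⟩ := e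
      exact Or.inr (Or.inr (Or.inr ⟨_, rfl, .ins p s b⟩))
  | del p s a =>
    cases p with
    | nil =>
      simp only [List.nil_append, List.cons.injEq] at e
      exact Or.inr (Or.inl (by simp [e.2]))
    | cons d p =>
      simp only [List.cons_append, List.cons.injEq] at e
      obtain ⟨rfl, rfl⟩ := e
      exact Or.inr (Or.inr (Or.inr ⟨_, rfl, .del p s a⟩))
  | sub p s a b =>
    cases p with
    | nil =>
      simp only [List.nil_append, List.cons.injEq] at e
      exact Or.inr (Or.inr (Or.inl ⟨b, by simp [e.2]⟩))
    | cons d p =>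
      simp only [List.cons_append, List.cons.injEq] at e
      obtain ⟨rfl, rfl⟩ := e
      exact Or.inr (Or.inr (Or.inr ⟨_, rfl, .sub p s a b⟩))

lemma step_nil {v : List α} (h : Step [] v) : ∃ b, v = [b] := by
  generalize e : ([] : List α) = u at h
  cases h with
  | ins p s b =>
    have := e.symm
    simp only [List.append_eq_nil_iff] at this
    exact ⟨b, by simp [this.1, this.2]⟩
  | del p s a => simp at e
  | sub p s a b => simp at e

lemma Al.step {x w : List α} {k : ℕ} (h : Al x w k) : ∀ v, Step w v → Al x v (k + 1) := by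
  induction h with
  | nil k => intro v hv; obtain ⟨b, rfl⟩ := step_nil hv; exact .ins b (.nil _)
  | del a _ ih => exact fun v hv => .del a (ih v hv)
  | ins c h ih =>
    intro v hv
    rcases step_cases hv with ⟨b, rfl⟩ | rfl | ⟨b, rfl⟩ | ⟨v', rfl, h'⟩
    · exact .ins b (.ins c h)
    · exact h.succ.succ
    · exact (Al.ins b h).succ
    · exact .ins c (ih _ h')
  | sub a c h ih =>
    intro v hv
    rcases step_cases hv with ⟨b, rfl⟩ | rfl | ⟨b, rfl⟩ | ⟨v', rfl, h'⟩
    · exact .ins b (.sub a c h)
    · exact (Al.del a h).succ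
    · exact (Al.sub a b h).succ
    · exact .sub a c (ih _ h')
  | mat c h ih =>
    intro v hv
    rcases step_cases hv with ⟨b, rfl⟩ | rfl | ⟨b, rfl⟩ | ⟨v', rfl, h'⟩
    · exact .ins b (.mat c h)
    · exact .del c h
    · exact .sub c b h
    · exact .mat c (ih _ h')

lemma Reach.al {k : ℕ} {u v : List α} (h : Reach k u v) : Al u v k := by
  induction h with
  | refl u => exact .refl u
  | step _ hs ih => exact ih.step _ hs

lemma Step.cons {u v : List α} (c : α) (h : Step u v) : Step (c :: u) (c :: v) := by
  cases h with
  | ins p s b => exact .ins (c :: p) s b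
  | del p s a => exact .del (c :: p) s a
  | sub p s a b => exact .sub (c :: p) s a b

lemma Reach.cons {k : ℕ} {u v : List α} (c : α) (h : Reach k u v) :
    Reach k (c :: u) (c :: v) := by
  induction h with
  | refl u => exact .refl _
  | step _ hs ih => exact .step ih (hs.cons c)

lemma Al.ball {x w : List α} {k : ℕ} (h : Al x w k) : w ∈ ball k x := by
  induction h with
  | nil k => exact ⟨0, Nat.zero_le _, .refl _⟩
  | del a _ ih =>
    obtain ⟨j, hj, h⟩ := ih
    exact ⟨j + 1, by omega, .step (h.cons a) (.del [] _ a)⟩
  | ins b _ ih =>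
    obtain ⟨j, hj, h⟩ := ih
    exact ⟨j + 1, by omega, .step h (.ins [] _ b)⟩
  | sub a b _ ih =>
    obtain ⟨j, hj, h⟩ := ih
    exact ⟨j + 1, by omega, .step (h.cons a) (.sub [] _ a b)⟩
  | mat a _ ih =>
    obtain ⟨j, hj, h⟩ := ih
    exact ⟨j, hj, h.cons a⟩

lemma mem_ball {x w : List α} {k : ℕ} : w ∈ ball k x ↔ Al x w k :=
  ⟨fun ⟨_, hj, h⟩ => h.al.mono hj, Al.ball⟩

def lt (n j : ℕ) : Fin (n + 1) := ⟨min j n, by omega⟩

def g (n r e t : ℕ) (S : Finset ℕ) (i : ℕ) : ℕ :=
  if i < r then (if i ∈ S then 2 * i + 1 else n) else if i + e + t < n then i + e else n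

def C (S : Finset ℕ) (e p : ℕ) : ℕ := (S.filter fun i => p ≤ i ∧ i < e).card

lemma C_zero (S : Finset ℕ) {e p : ℕ} (h : e ≤ p) : C S e p = 0 := by
  simp only [C, Finset.card_eq_zero, Finset.filter_eq_empty_iff]
  intro i _; omega

lemma C_step (S : Finset ℕ) (e p : ℕ) :
    C S e p = C S e (p + 1) + if p ∈ S ∧ p < e then 1 else 0 := by
  unfold C
  split_ifs with h
  · rw [← Finset.card_insert_of_notMem (a := p) (by simp)]
    congr 1; ext i
    simp only [Finset.mem_filter, Finset.mem_insert]
    constructor
    · rintro ⟨h1, h2⟩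
      by_cases hi : i = p
      · exact Or.inl hi
      · exact Or.inr ⟨h1, by omega⟩
    · rintro (rfl | ⟨h1, h2⟩)
      · exact ⟨h.1, le_rfl, h.2⟩
      · exact ⟨h1, by omega⟩
  · rw [add_zero]
    congr 1; ext i
    simp only [Finset.mem_filter]
    constructor
    · rintro ⟨h1, h2⟩
      refine ⟨h1, ?_⟩
      by_cases hi : i = p
      · subst hi; exact absurd ⟨h1, h2.2⟩ h
      · omega
    · rintro ⟨h1, h2⟩
      exact ⟨h1, by omega⟩

lemma C_mono (S : Finset ℕ) (e p q : ℕ) (h : p ≤ q) :
    C S e q ≤ C S e p ∧ C S e p + p ≤ C S e q + q := by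
  induction h with
  | refl => omega
  | @step q _ ih =>
    have := C_step S e q
    simp only [Nat.succ_eq_add_one]
    split_ifs at this <;> omega

lemma C_cmp (S : Finset ℕ) (e p q : ℕ) :
    (p ≤ q → C S e q ≤ C S e p ∧ C S e p + p ≤ C S e q + q) ∧
    (q ≤ p → C S e p ≤ C S e q ∧ C S e q + q ≤ C S e p + p) ∧ (C S e p ≤ e - p) ∧
    (C S e q ≤ e - q) := by
  have H : ∀ p, C S e p ≤ e - p := fun p => by
    by_cases h : e ≤ p
    · rw [C_zero S h]; omega
    · have := C_mono S e p e (by omega)
      rw [C_zero S le_rfl] at this; omega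
  exact ⟨C_mono S e p q, C_mono S e q p, H p, H q⟩

/-- A lower bound for the cost of aligning the suffixes at `i` and `j`. -/
def Phi (n r e t : ℕ) (S : Finset ℕ) (i j : ℕ) : ℤ :=
  if r ≤ i then max ((i : ℤ) + e - j) (j - i - e) + min (t : ℤ) (min (n - j) (n - e - i))
  else t + (r - i) + max ((i : ℤ) + e - j) 0 -
    (if j ≤ i + e then (C S e (max i (j - i - 1)) : ℤ) else if 2 * i < j then 1 else 0)

lemma lower {n r e t : ℕ} (S : Finset ℕ) (he : e ≤ r) (hn : e + r + t ≤ n)
    {x w : List (Fin (n + 1))} {k : ℕ} (h : Al x w k) : ∀ i j a b, j + a = n → i + b + e = n →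
      x = (List.range' j a).map (lt n) → w = (List.range' i b).map (lt n ∘ g n r e t S) →
      Phi n r e t S i j ≤ k := by
  induction h with
  | nil k =>
    intro i j a b h1 h2 h3 h4
    have ha : a = 0 := by simpa using h3.symm
    have hb : b = 0 := by simpa using h4.symm
    unfold Phi; split_ifs <;> omega
  | del c _ ih =>
    intro i j a b h1 h2 h3 h4
    cases a with
    | zero => simp at h3
    | succ a =>
      simp only [List.range'_succ, List.map_cons, List.cons.injEq] at h3
      have := ih i (j + 1) a b (by omega) h2 h3.2 h4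
      have hc := C_cmp S e (max i (j - i - 1)) (max i (j + 1 - i - 1))
      unfold Phi at this ⊢; split_ifs at this ⊢ <;> omega
  | ins c _ ih =>
    intro i j a b h1 h2 h3 h4
    cases b with
    | zero => simp at h4
    | succ b =>
      simp only [List.range'_succ, List.map_cons, List.cons.injEq] at h4
      have := ih (i + 1) j a b h1 (by omega) h3 h4.2
      have hc := C_cmp S e (max i (j - i - 1)) (max (i + 1) (j - (i + 1) - 1))
      unfold Phi at this ⊢; split_ifs at this ⊢ <;> omega
  | sub c d _ ih =>
    intro i j a b h1 h2 h3 h4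
    cases a with
    | zero => simp at h3
    | succ a =>
    cases b with
    | zero => simp at h4
    | succ b =>
      simp only [List.range'_succ, List.map_cons, List.cons.injEq] at h3 h4
      have := ih (i + 1) (j + 1) a b (by omega) (by omega) h3.2 h4.2
      have hc := C_cmp S e (max i (j - i - 1)) (max (i + 1) (j + 1 - (i + 1) - 1))
      unfold Phi at this ⊢; split_ifs at this ⊢ <;> omega
  | mat c _ ih =>
    intro i j a b h1 h2 h3 h4
    cases a with
    | zero => simp at h3
    | succ a =>
    cases b with
    | zero => simp at h4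
    | succ b =>
      simp only [List.range'_succ, List.map_cons, List.cons.injEq] at h3 h4
      have := ih (i + 1) (j + 1) a b (by omega) (by omega) h3.2 h4.2
      have hm : min j n = min (g n r e t S i) n := congrArg Fin.val (h3.1.symm.trans h4.1)
      have hs := C_step S e i
      unfold g at hm
      by_cases hi : i < r
      · by_cases hS : i ∈ S
        · simp only [hi, hS, if_true, true_and] at hm hs
          have hj : j = 2 * i + 1 := by omega
          have e1 : max i (j - i - 1) = i := by omega
          have e2 : max (i + 1) (j + 1 - (i + 1) - 1) = i + 1 := by omega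
          have hc := C_cmp S e (i + 1) (i + 1)
          unfold Phi at this ⊢
          rw [e2] at this
          rw [e1]
          split_ifs at this hs ⊢ <;> omega
        · simp only [hi, hS, if_true, if_false] at hm
          omega
      · simp only [hi, if_false] at hm
        unfold Phi at this ⊢; split_ifs at this hm ⊢ <;> omega

lemma upper {n r e t : ℕ} (S : Finset ℕ) (he : e ≤ r) (hn : e + r + t ≤ n) (b : ℕ) :
    ∀ i a, i + b + e = n → a + i + min i e = n →
      Al ((List.range' (i + min i e) a).map (lt n)) ((List.range' i b).map (lt n ∘ g n r e t S))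
        (if r ≤ i then min t b else t + (r - i) + (e - i) - C S e i) := by
  induction b with
  | zero =>
    intro i a h1 h2
    have : a = 0 := by omega
    subst this
    exact .nil _
  | succ b ih =>
    intro i a h1 h2
    have hc := C_cmp S e i (i + 1)
    have hs := C_step S e i
    by_cases hi : i < e
    · obtain ⟨a, rfl⟩ : ∃ a', a = a' + 2 := ⟨a - 2, by omega⟩
      have := ih (i + 1) a (by omega) (by omega)
      have e1 : i + 1 + min (i + 1) e = i + min i e + 1 + 1 := by omega
      rw [e1] at this
      simp only [List.range'_succ, List.map_cons]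
      by_cases hS : i ∈ S
      · have e2 : (lt n ∘ g n r e t S) i = lt n (i + min i e + 1) := by
          have : i < r := by omega
          simp only [Function.comp, g, this, hS, if_true]
          congr 1; omega
        rw [e2]
        refine (Al.del _ (Al.mat _ this)).mono ?_
        simp only [hS, hi, and_self, if_true] at hs
        split_ifs <;> omega
      · refine (Al.del _ (Al.sub _ _ this)).mono ?_
        simp only [hS, false_and, if_false] at hs
        split_ifs <;> omega
    · obtain ⟨a, rfl⟩ : ∃ a', a = a' + 1 := ⟨a - 1, by omega⟩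
      have := ih (i + 1) a (by omega) (by omega)
      have e1 : i + 1 + min (i + 1) e = i + min i e + 1 := by omega
      rw [e1] at this
      simp only [List.range'_succ, List.map_cons]
      by_cases hm : r ≤ i ∧ i + e + t < n
      · have e2 : (lt n ∘ g n r e t S) i = lt n (i + min i e) := by
          have : ¬ i < r := by omega
          simp only [Function.comp, g, this, hm.2, if_true, if_false]
          congr 1; omega
        rw [e2]
        refine (Al.mat _ this).mono ?_
        split_ifs <;> omega
      · refine (Al.sub _ _ this).mono ?_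
        split_ifs <;> omega

def X (n : ℕ) : List (Fin (n + 1)) := (List.range' 0 n).map (lt n)

def U (n r : ℕ) (S : Finset ℕ) : List (Fin (n + 1)) :=
  (List.range' 0 r).map fun i => lt n (if i ∈ S then 2 * i + 1 else n)

def V (n r e t : ℕ) : List (Fin (n + 1)) :=
  (List.range' r (n - e - r)).map fun i => lt n (if i + e + t < n then i + e else n)

lemma test {n r e t k : ℕ} (S : Finset ℕ) (hr : 0 < r) (he : e ≤ r) (hn : e + r + t ≤ n) :
    U n r S ++ V n r e t ∈ ball k (X n) ↔ t + r + e ≤ k + C S e 0 := by
  have e1 : U n r S ++ V n r e t = (List.range' 0 (n - e)).map (lt n ∘ g n r e t S) := by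
    have : n - e = r + (n - e - r) := by omega
    rw [this, ← List.range'_append_1, List.map_append, zero_add]
    congr 1
    · refine List.map_congr_left fun i hi => ?_
      have : i < r := by simpa using hi
      simp [g, this]
    · refine List.map_congr_left fun i hi => ?_
      have : ¬ i < r := by
        rw [List.mem_range'_1] at hi; omega
      simp [g, this]
  rw [mem_ball, e1]
  have hc := C_cmp S e 0 0
  constructor
  · intro h
    have := lower S he hn h 0 0 n (n - e) (by omega) (by omega) rfl rfl
    unfold Phi at this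
    simp only [Nat.sub_self, max_self, Nat.zero_sub] at this
    split_ifs at this <;> omega
  · intro h
    have := upper S he hn (n - e) 0 n (by omega) (by omega)
    simp only [Nat.zero_min, add_zero] at this
    refine this.mono ?_
    split_ifs <;> omega

lemma C_succ (S : Finset ℕ) (e : ℕ) : C S (e + 1) 0 = C S e 0 + if e ∈ S then 1 else 0 := by
  have : ∀ e, C S e 0 = ∑ i ∈ Finset.range e, if i ∈ S then 1 else 0 := fun e => by
    rw [Finset.sum_boole, C]
    congr 1; ext i; simp [and_comm]
  rw [this, this, Finset.sum_range_succ]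

lemma dfa_card (r : ℕ) (hr : 0 < r) (σ : Type) [Fintype σ] (M : DFA (Fin (3 * r + 1)) σ)
    (hM : M.accepts = ball (2 * r) (X (3 * r))) : 2 ^ r ≤ Fintype.card σ := by
  classical
  have key : ∀ S T : Finset ℕ, M.eval (U (3 * r) r S) = M.eval (U (3 * r) r T) →
      ∀ e ≤ r, C S e 0 ≤ C T e 0 := by
    intro S T h e he
    have hc := C_cmp S e 0 0
    have h1 := (test (n := 3 * r) (k := 2 * r) (t := r - e + C S e 0) S hr he (by omega)).mpr
      (by omega)
    have h2 : U (3 * r) r T ++ V (3 * r) r e (r - e + C S e 0) ∈ ball (2 * r) (X (3 * r)) := by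
      rw [← hM, DFA.mem_accepts, DFA.eval, DFA.evalFrom_of_append] at h1 ⊢
      simp only [DFA.eval] at h
      rwa [← h]
    have h3 := (test T hr he (by omega)).mp h2
    omega
  have inj : Set.InjOn (fun S => M.eval (U (3 * r) r S))
      ((Finset.range r).powerset : Set (Finset ℕ)) := by
    intro S hS T hT h
    have hS' : S ⊆ Finset.range r := Finset.mem_powerset.mp (Finset.mem_coe.mp hS)
    have hT' : T ⊆ Finset.range r := Finset.mem_powerset.mp (Finset.mem_coe.mp hT)
    ext i
    by_cases hi : i < r
    · have a1 := key S T h i hi.le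
      have a2 := key T S h.symm i hi.le
      have a3 := key S T h (i + 1) hi
      have a4 := key T S h.symm (i + 1) hi
      rw [C_succ, C_succ] at a3 a4
      by_cases h1 : i ∈ S <;> by_cases h2 : i ∈ T <;> simp only [h1, h2, if_true, if_false] at * <;>
        omega
    · exact ⟨fun h => absurd (Finset.mem_range.mp (hS' h)) hi,
        fun h => absurd (Finset.mem_range.mp (hT' h)) hi⟩
  have := Finset.card_le_card_of_injOn _ (t := Finset.univ) (fun _ _ => Finset.mem_univ _) inj
  simpa using this

theorem result : ∃ c : ℝ, 0 < c ∧ ∀ N : ℕ, ∃ (m : ℕ) (x : List (Fin m)) (k : ℕ),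
    N ≤ min k x.length ∧ ∀ (σ : Type) [Fintype σ] (M : DFA (Fin m) σ), M.accepts = ball k x →
      (2 : ℝ) ^ (c * (min k x.length : ℕ)) ≤ Fintype.card σ := by
  refine ⟨1 / 2, by norm_num, fun N => ⟨_, X (3 * (N + 1)), 2 * (N + 1), ?_, fun σ _ M hM => ?_⟩⟩
  · simp [X]; omega
  · have := dfa_card (N + 1) (by omega) σ M hM
    have e : min (2 * (N + 1)) (X (3 * (N + 1))).length = 2 * (N + 1) := by simp [X]
    rw [e]
    have e2 : (1 / 2 : ℝ) * ((2 * (N + 1) : ℕ) : ℝ) = ((N + 1 : ℕ) : ℝ) := by push_cast; ring
    rw [e2, Real.rpow_natCast]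
    exact_mod_cast this

end Pool.Agent.Results.MP_ecf776_lc.Exponential
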